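import Mathlib
import Pool.Agent.helper41.BigPoly.Criterion

/-!
# Exactly when is `R` a polynomial algebra over `R^♭`?

For every integral domain `A` with perfect fraction field `K` of characteristic `p` (possibly
`p = 0`), the ring `R` is a polynomial algebra over `R^♭` if and only if `p = 0` or every sequence
`(c_i)` in `K` with `c_i ^ p ∈ A` for all `i` has a common denominator in `A`.
-/

set_option autoImplicit false

namespace Pool.Agent.Results.MP_5fe329_al.Criterion

open Pool.Agent.helper41.BigPoly

universe u v

/-- **Criterion.** -/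
theorem result (A : Type v) (K : Type u) [CommRing A] [IsDomain A] [Field K] [Algebra A K]
    [IsFractionRing A K] [PerfectField K] (p : ℕ) [CharP K p] :
    IsPolynomialOverFlat.{u, v, u} A K ↔
    (p = 0 ∨ ∀ c : ℕ → K, (∀ i, ∃ b : A, algebraMap A K b = c i ^ p) →
      ∃ a : A, a ≠ 0 ∧ ∀ i, ∃ b : A, algebraMap A K b = algebraMap A K a * c i) := by
  haveI := isDomain_bigRing K
  rcases CharP.char_is_prime_or_zero K p with hp | hp
  · haveI : Fact p.Prime := ⟨hp⟩
    haveI : ExpChar K p := ExpChar.prime hp
    constructor
    · rintro ⟨J, ⟨φ⟩⟩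
      right
      intro c hc
      exact exists_of_linForm_mem c
        (mem_of_pow_mem_of_equiv (BoundedDenominators A K) φ hp.ne_zero (linForm_pow_mem p c hc))
    · rintro (h | h)
      · exact absurd h hp.ne_zero
      · exact exists_equiv_of_closed p (closed_of_seq p h)
  · subst hp
    haveI : CharZero K := CharP.charP_to_charZero K
    refine ⟨fun _ => Or.inl rfl, fun _ => ?_⟩
    exact exists_equiv_of_closed 1 (fun g hg => by rwa [pow_one] at hg)

end Pool.Agent.Results.MP_5fe329_al.Criterion
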