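import Mathlib
import Pool.Agent.helper41.BigPoly.Criterion

/-!
# Negative answer: `R` need not be a polynomial algebra over `R^♭`

For every prime `p` we give an integral domain `A` of characteristic `p` with perfect fraction
field `K` such that `R` is not a polynomial algebra over `R^♭` in any set of variables.
The domain is the monoid algebra over `𝔽_p` of the monoid of finitely supported sequences of
rational numbers each of whose entries is `0` or at least `1`.
-/

set_option autoImplicit false

namespace Pool.Agent.Results.MP_5fe329_al.Disproof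

open Pool.Agent.helper41.BigPoly

universe w

/-- The monoid of finitely supported `f : ℕ → ℚ` with `f i = 0` or `1 ≤ f i` for every `i`. -/
def M : AddSubmonoid (ℕ →₀ ℚ) where
  carrier := {f | ∀ i, f i = 0 ∨ 1 ≤ f i}
  zero_mem' := fun i => Or.inl rfl
  add_mem' := by
    intro f g hf hg i
    rw [Finsupp.add_apply]
    rcases hf i with h1 | h1 <;> rcases hg i with h2 | h2
    · left; rw [h1, h2, add_zero]
    · right; rw [h1, zero_add]; exact h2
    · right; rw [h2, add_zero]; exact h1
    · right; linarith

/-- The domain `A = 𝔽_p[M]`. -/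
abbrev A (p : ℕ) : Type := AddMonoidAlgebra (ZMod p) M

instance uniqueSums_M : UniqueSums M :=
  UniqueSums.of_injective_addHom (AddSubmonoid.subtype M : M →+ (ℕ →₀ ℚ)).toAddHom
    Subtype.val_injective inferInstance

instance isDomain_A (p : ℕ) [Fact p.Prime] : IsDomain (A p) := by
  haveI : NoZeroDivisors (A p) := inferInstance
  exact NoZeroDivisors.to_isDomain _

/-- Scaling an element of `M` by `1 + 1/p` stays in `M`. -/
noncomputable def scale (p : ℕ) (m : M) : M :=
  ⟨(1 + 1 / (p : ℚ)) • (m : ℕ →₀ ℚ), by
    intro i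
    rw [Finsupp.smul_apply, smul_eq_mul]
    rcases m.2 i with h | h
    · left; rw [h, mul_zero]
    · right
      have : (0 : ℚ) ≤ 1 / p := by positivity
      nlinarith⟩

theorem nsmul_scale (p : ℕ) (hp : p ≠ 0) (m : M) : p • scale p m = m + p • m := by
  apply Subtype.ext
  have hp' : (p : ℚ) ≠ 0 := Nat.cast_ne_zero.2 hp
  ext i
  simp only [scale, AddSubmonoid.coe_add, AddSubmonoidClass.coe_nsmul, Finsupp.add_apply,
    Finsupp.smul_apply, smul_eq_mul, nsmul_eq_mul]
  field_simp
  ring

/-- The `i`-th basic element of `M`. -/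
noncomputable def bas (i : ℕ) : M :=
  ⟨Finsupp.single i 1, by
    intro j
    by_cases h : j = i
    · right; rw [h, Finsupp.single_eq_same]
    · left; rw [Finsupp.single_eq_of_ne h]⟩

/-- A `p`-th root of a monomial, in the fraction field. -/
noncomputable def root (p : ℕ) [Fact p.Prime] (m : M) (r : ZMod p) : FractionRing (A p) :=
  algebraMap (A p) _ (AddMonoidAlgebra.single (scale p m) r) /
    algebraMap (A p) _ (AddMonoidAlgebra.single m 1)

theorem algebraMap_single_ne_zero (p : ℕ) [Fact p.Prime] (m : M) :
    algebraMap (A p) (FractionRing (A p)) (AddMonoidAlgebra.single m 1) ≠ 0 := by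
  rw [Ne, FaithfulSMul.algebraMap_eq_zero_iff]
  intro h
  have := congrArg (fun f : A p => f.coeff m) h
  simp at this

theorem root_pow (p : ℕ) [hp : Fact p.Prime] (m : M) (r : ZMod p) :
    root p m r ^ p = algebraMap (A p) _ (AddMonoidAlgebra.single m r) := by
  rw [root, div_pow, ← map_pow, ← map_pow, AddMonoidAlgebra.single_pow, AddMonoidAlgebra.single_pow,
    ZMod.pow_card, one_pow, div_eq_iff, ← map_mul, AddMonoidAlgebra.single_mul_single, mul_one,
    nsmul_scale p hp.out.ne_zero]
  exact algebraMap_single_ne_zero p _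

instance charP_A (p : ℕ) [Fact p.Prime] : CharP (A p) p :=
  charP_of_injective_algebraMap (algebraMap (ZMod p) (A p)).injective p

instance charP_K (p : ℕ) [Fact p.Prime] : CharP (FractionRing (A p)) p :=
  charP_of_injective_algebraMap (IsFractionRing.injective (A p) (FractionRing (A p))) p

theorem exists_root_alg (p : ℕ) [Fact p.Prime] (a : A p) :
    ∃ u : FractionRing (A p), u ^ p = algebraMap (A p) _ a := by
  induction a using AddMonoidAlgebra.induction_linear with
  | zero => exact ⟨0, by rw [map_zero, zero_pow (Nat.Prime.ne_zero Fact.out)]⟩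
  | add x y hx hy =>
    obtain ⟨u, hu⟩ := hx
    obtain ⟨w, hw⟩ := hy
    exact ⟨u + w, by rw [add_pow_char, hu, hw, map_add]⟩
  | single m r => exact ⟨root p m r, root_pow p m r⟩

theorem perfectField_K (p : ℕ) [hp : Fact p.Prime] : PerfectField (FractionRing (A p)) := by
  haveI : ExpChar (FractionRing (A p)) p := ExpChar.prime hp.out
  haveI : PerfectRing (FractionRing (A p)) p := by
    refine PerfectRing.ofSurjective _ p fun x => ?_
    obtain ⟨a, b, -, rfl⟩ := IsFractionRing.div_surjective (A := A p) x
    obtain ⟨u, hu⟩ := exists_root_alg p a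
    obtain ⟨w, hw⟩ := exists_root_alg p b
    exact ⟨u / w, by rw [frobenius_def, div_pow, hu, hw]⟩
  exact PerfectRing.toPerfectField _ p

/-- The sequence of `p`-th roots of the basic monomials has no common denominator. -/
theorem no_common_denominator (p : ℕ) [hp : Fact p.Prime] :
    ¬ ∃ a : A p, a ≠ 0 ∧ ∀ i, ∃ b : A p, algebraMap (A p) (FractionRing (A p)) b =
      algebraMap (A p) _ a * root p (bas i) 1 := by
  classical
  rintro ⟨a, ha, h⟩
  obtain ⟨m₀, hm₀⟩ : ∃ m, a.coeff m ≠ 0 := by
    by_contra h'
    push Not at h'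
    apply ha
    ext m
    exact h' m
  obtain ⟨i, hi⟩ : ∃ i : ℕ, (m₀ : ℕ →₀ ℚ) i = 0 := by
    obtain ⟨i, hi⟩ := Infinite.exists_notMem_finset (m₀ : ℕ →₀ ℚ).support
    exact ⟨i, Finsupp.notMem_support_iff.1 hi⟩
  obtain ⟨b, hb⟩ := h i
  rw [root, ← mul_div_assoc, eq_div_iff (algebraMap_single_ne_zero p _), ← map_mul, ← map_mul] at hb
  have hb' := IsFractionRing.injective (A p) (FractionRing (A p)) hb
  have h1 := congrArg (fun f : A p => f.coeff (m₀ + scale p (bas i))) hb'
  have h2 : (a * AddMonoidAlgebra.single (scale p (bas i)) 1).coeff (m₀ + scale p (bas i)) =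
      a.coeff m₀ * 1 := by
    refine AddMonoidAlgebra.coeff_mul_single_eq_coeff_mul _ fun m' _ => ?_
    exact ⟨fun h => add_right_cancel h, fun h => by rw [h]⟩
  have h3 : (b * AddMonoidAlgebra.single (bas i) 1).coeff (m₀ + scale p (bas i)) = 0 := by
    refine AddMonoidAlgebra.coeff_mul_single_of_forall_add_ne _ _ fun d hd => ?_
    have h4 := congrArg (fun x : M => (x : ℕ →₀ ℚ) i) hd
    simp only [AddSubmonoid.coe_add, Finsupp.add_apply, scale, bas, Finsupp.smul_apply,
      Finsupp.single_eq_same, smul_eq_mul, mul_one, hi] at h4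
    have hp2 : (2 : ℚ) ≤ p := by exact_mod_cast hp.out.two_le
    have hpos : (0 : ℚ) < 1 / p := by positivity
    have hlt : 1 / (p : ℚ) < 1 := by
      rw [div_lt_one (by linarith)]; linarith
    rcases d.2 i with h5 | h5
    · rw [h5] at h4; linarith
    · linarith
  rw [h2, h3, mul_one] at h1
  exact hm₀ h1.symm

/-- **Negative answer to Q1, in every prime characteristic.** -/
theorem result (p : ℕ) (hp : p.Prime) :
    ∃ (A : Type) (_ : CommRing A) (_ : IsDomain A), CharP A p ∧ PerfectField (FractionRing A) ∧
      ¬ IsPolynomialOverFlat.{0, 0, w} A (FractionRing A) := by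
  haveI : Fact p.Prime := ⟨hp⟩
  refine ⟨A p, inferInstance, inferInstance, inferInstance, perfectField_K p, ?_⟩
  rintro ⟨J, ⟨φ⟩⟩
  haveI := isDomain_bigRing (FractionRing (A p))
  apply no_common_denominator p
  exact exists_of_linForm_mem _ (mem_of_pow_mem_of_equiv _ φ hp.ne_zero
    (linForm_pow_mem p (fun i => root p (bas i) 1) fun i =>
      ⟨AddMonoidAlgebra.single (bas i) 1, (root_pow p (bas i) 1).symm⟩))

end Pool.Agent.Results.MP_5fe329_al.Disproof
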